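import Pool.Agent.Helper28.Tg.Defs7
import Pool.Agent.Helper8.Stp.Prob
import Pool.Graph.R_seed8.H4R2.LO.Weg2

/-! # One step of the multiscale analysis with variable energy (part BTS, helper82) -/

set_option autoImplicit false

open MeasureTheory Filter Topology
open scoped BigOperators ENNReal NNReal

namespace Pool.Agent.Helper82.Tg

open Pool.Agent.H4R2.LO (Zd dd bx Hm AL rs Near)
open Pool.Agent.H4R2.LO.Em (dd_self dd_comm dd_tri mem_bx card_bx)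
open Pool.Agent.H5R2.NB (PP)
open Pool.Agent.Helper28.Tg
open Pool.Agent.Helper8.Stp (Res res_open res_loc indep)

variable {d : ℕ}

/-- four separated bad centres -/
def Fo (B : Zd d → Set ((Zd d → ℝ) × ℝ)) (l L : ℕ) (x : Zd d) : Set ((Zd d → ℝ) × ℝ) :=
  {p | ∃ c : Fin 4 → Zd d, (∀ i, dd x (c i) ≤ L) ∧
    (∀ i j, i ≠ j → 4 * l < dd (c i) (c j)) ∧ ∀ i, p ∈ B (c i)}

/-- a resonant box -/
def Rs (l L : ℕ) (δ : ℝ) (x : Zd d) : Set ((Zd d → ℝ) × ℝ) :=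
  {p | ∃ c, dd x c ≤ L ∧ ∃ k ∈ ({1, 2, 3} : Finset ℕ), p ∈ Res c (16 * k * l) δ}

theorem fo_open (B : Zd d → Set ((Zd d → ℝ) × ℝ)) (hB : ∀ c E, IsOpen {V | (V, E) ∈ B c})
    (l L : ℕ) (x : Zd d) (E : ℝ) : IsOpen {V | (V, E) ∈ Fo B l L x} := by
  have h : {V | (V, E) ∈ Fo B l L x} = ⋃ c : {c : Fin 4 → Zd d // (∀ i, dd x (c i) ≤ L) ∧
      (∀ i j, i ≠ j → 4 * l < dd (c i) (c j))}, ⋂ i, {V | (V, E) ∈ B (c.1 i)} := by
    ext V
    rw [Set.mem_iUnion]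
    constructor
    · rintro ⟨c, h1, h2, h3⟩
      exact ⟨⟨c, h1, h2⟩, Set.mem_iInter.2 h3⟩
    · rintro ⟨⟨c, h1, h2⟩, h3⟩
      have h4 := Set.mem_iInter.1 h3
      exact ⟨c, h1, h2, fun i => h4 i⟩
  rw [h]
  exact isOpen_iUnion fun c => isOpen_iInter_of_finite fun i => hB _ _

theorem rs_open (l L : ℕ) (δ : ℝ) (x : Zd d) (E : ℝ) : IsOpen {V | (V, E) ∈ Rs l L δ x} := by
  have h : {V | (V, E) ∈ Rs l L δ x} = ⋃ q : {q : Zd d × ℕ // dd x q.1 ≤ L ∧
      q.2 ∈ ({1, 2, 3} : Finset ℕ)}, {V | (V, E) ∈ Res q.1.1 (16 * q.1.2 * l) δ} := by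
    ext V
    rw [Set.mem_iUnion]
    constructor
    · rintro ⟨c, h1, k, h2, h3⟩
      exact ⟨⟨(c, k), h1, h2⟩, h3⟩
    · rintro ⟨⟨⟨c, k⟩, h1, h2⟩, h3⟩
      exact ⟨c, h1, k, h2, h3⟩
  rw [h]
  have hcont : Continuous fun V : Zd d → ℝ => (V, E) := by fun_prop
  exact isOpen_iUnion fun q => (res_open _ _ _).preimage hcont

theorem tw_open (J : Set ℝ) (B : Zd d → Set ((Zd d → ℝ) × ℝ))
    (hB : ∀ c E, IsOpen {V | (V, E) ∈ B c}) (c c' : Zd d) :
    IsOpen {V | ∃ E ∈ J, (V, E) ∈ B c ∧ (V, E) ∈ B c'} := by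
  have h : {V | ∃ E ∈ J, (V, E) ∈ B c ∧ (V, E) ∈ B c'} =
      ⋃ E : J, ({V | (V, E.1) ∈ B c} ∩ {V | (V, E.1) ∈ B c'}) := by
    ext V
    rw [Set.mem_iUnion]
    constructor
    · rintro ⟨E, h1, h2, h3⟩
      exact ⟨⟨E, h1⟩, h2, h3⟩
    · rintro ⟨⟨E, h1⟩, h2, h3⟩
      exact ⟨E, h1, h2, h3⟩
  rw [h]
  exact isOpen_iUnion fun E => (hB _ _).inter (hB _ _)

theorem disj (c c' : Zd d) (r r' : ℕ) (h : r + r' < dd c c') : Disjoint (bx c r) (bx c' r') := by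
  rw [Finset.disjoint_left]
  intro y hy hy'
  rw [mem_bx] at hy hy'
  have h1 := dd_tri c y c'
  have h2 := dd_comm y c'
  omega

/-- the probability of four separated bad centres -/
theorem fo_pr (ν : Measure ℝ) [IsProbabilityMeasure ν] (J : Set ℝ) (l L : ℕ) (p : ℝ)
    (hp0 : 0 ≤ p) (B : Zd d → Set ((Zd d → ℝ) × ℝ)) (hB : ∀ c E, IsOpen {V | (V, E) ∈ B c})
    (hloc : ∀ x V V' E, (∀ y, dd x y ≤ 2 * l → V y = V' y) → (V, E) ∈ B x → (V', E) ∈ B x)
    (hpr : ∀ x y, 4 * l < dd x y →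
      (PP d ν) {V | ∃ E ∈ J, (V, E) ∈ B x ∧ (V, E) ∈ B y} ≤ ENNReal.ofReal p) (x : Zd d) :
    (PP d ν) {V | ∃ E ∈ J, (V, E) ∈ Fo B l L x} ≤
      ENNReal.ofReal (((2 * (L : ℝ) + 1) ^ d) ^ 4 * p ^ 2) := by
  classical
  obtain ⟨Z, hZ⟩ : ∃ Z : Finset (Fin 4 → Zd d), Z = Fintype.piFinset fun _ : Fin 4 => bx x L :=
    ⟨_, rfl⟩
  have hcard : (Z.card : ℝ) = ((2 * (L : ℝ) + 1) ^ d) ^ 4 := by
    rw [hZ, Fintype.card_piFinset, Finset.prod_const, Finset.card_univ, Fintype.card_fin, card_bx]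
    push_cast
    ring
  have hsub : {V | ∃ E ∈ J, (V, E) ∈ Fo B l L x} ⊆ ⋃ c ∈ Z,
      {V | (∀ i j, i ≠ j → 4 * l < dd (c i) (c j)) ∧
        V ∈ {V | ∃ E ∈ J, (V, E) ∈ B (c 0) ∧ (V, E) ∈ B (c 1)} ∩
          {V | ∃ E ∈ J, (V, E) ∈ B (c 2) ∧ (V, E) ∈ B (c 3)}} := by
    rintro V ⟨E, hE, c, h1, h2, h3⟩
    rw [Set.mem_iUnion₂]
    refine ⟨c, ?_, h2, ⟨E, hE, h3 0, h3 1⟩, ⟨E, hE, h3 2, h3 3⟩⟩
    rw [hZ, Fintype.mem_piFinset]
    intro i
    rw [mem_bx]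
    exact h1 i
  have hone : ∀ c : Fin 4 → Zd d, (PP d ν) {V | (∀ i j, i ≠ j → 4 * l < dd (c i) (c j)) ∧
        V ∈ {V | ∃ E ∈ J, (V, E) ∈ B (c 0) ∧ (V, E) ∈ B (c 1)} ∩
          {V | ∃ E ∈ J, (V, E) ∈ B (c 2) ∧ (V, E) ∈ B (c 3)}} ≤ ENNReal.ofReal (p ^ 2) := by
    intro c
    by_cases h : ∀ i j, i ≠ j → 4 * l < dd (c i) (c j)
    · have hdis : Disjoint (bx (c 0) (2 * l) ∪ bx (c 1) (2 * l))
          (bx (c 2) (2 * l) ∪ bx (c 3) (2 * l)) := by
        rw [Finset.disjoint_union_left, Finset.disjoint_union_right, Finset.disjoint_union_right]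
        have h02 := h 0 2 (by decide)
        have h03 := h 0 3 (by decide)
        have h12 := h 1 2 (by decide)
        have h13 := h 1 3 (by decide)
        exact ⟨⟨disj _ _ _ _ (by omega), disj _ _ _ _ (by omega)⟩,
          disj _ _ _ _ (by omega), disj _ _ _ _ (by omega)⟩
      have hl : ∀ u v : Zd d, ∀ V V' : Zd d → ℝ,
          (∀ y ∈ bx u (2 * l) ∪ bx v (2 * l), V y = V' y) →
          V ∈ {V | ∃ E ∈ J, (V, E) ∈ B u ∧ (V, E) ∈ B v} →
          V' ∈ {V | ∃ E ∈ J, (V, E) ∈ B u ∧ (V, E) ∈ B v} := by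
        rintro u v V V' hVV ⟨E, hE, h1, h2⟩
        refine ⟨E, hE, hloc _ V V' E (fun y hy => hVV y ?_) h1,
          hloc _ V V' E (fun y hy => hVV y ?_) h2⟩
        · exact Finset.mem_union_left _ ((mem_bx _ _ _).2 hy)
        · exact Finset.mem_union_right _ ((mem_bx _ _ _).2 hy)
      calc (PP d ν) {V | (∀ i j, i ≠ j → 4 * l < dd (c i) (c j)) ∧
            V ∈ {V | ∃ E ∈ J, (V, E) ∈ B (c 0) ∧ (V, E) ∈ B (c 1)} ∩
              {V | ∃ E ∈ J, (V, E) ∈ B (c 2) ∧ (V, E) ∈ B (c 3)}}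
          ≤ (PP d ν) ({V | ∃ E ∈ J, (V, E) ∈ B (c 0) ∧ (V, E) ∈ B (c 1)} ∩
              {V | ∃ E ∈ J, (V, E) ∈ B (c 2) ∧ (V, E) ∈ B (c 3)}) :=
            measure_mono fun V hV => hV.2
        _ = (PP d ν) {V | ∃ E ∈ J, (V, E) ∈ B (c 0) ∧ (V, E) ∈ B (c 1)} *
            (PP d ν) {V | ∃ E ∈ J, (V, E) ∈ B (c 2) ∧ (V, E) ∈ B (c 3)} :=
            indep ν _ _ hdis _ _ (tw_open J B hB _ _).measurableSet
              (tw_open J B hB _ _).measurableSet (hl _ _) (hl _ _)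
        _ ≤ ENNReal.ofReal p * ENNReal.ofReal p :=
            mul_le_mul' (hpr _ _ (h 0 1 (by decide))) (hpr _ _ (h 2 3 (by decide)))
        _ = ENNReal.ofReal (p ^ 2) := by
            rw [← ENNReal.ofReal_mul hp0, sq]
    · have : {V : Zd d → ℝ | (∀ i j, i ≠ j → 4 * l < dd (c i) (c j)) ∧
            V ∈ {V | ∃ E ∈ J, (V, E) ∈ B (c 0) ∧ (V, E) ∈ B (c 1)} ∩
              {V | ∃ E ∈ J, (V, E) ∈ B (c 2) ∧ (V, E) ∈ B (c 3)}} = ∅ := by
        ext V
        constructor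
        · intro hV
          exact absurd hV.1 h
        · intro hV
          exact absurd hV (Set.notMem_empty _)
      rw [this, measure_empty]
      exact zero_le
  calc (PP d ν) {V | ∃ E ∈ J, (V, E) ∈ Fo B l L x} ≤ _ := measure_mono hsub
    _ ≤ ∑ c ∈ Z, ENNReal.ofReal (p ^ 2) :=
        (measure_biUnion_finset_le _ _).trans (Finset.sum_le_sum fun c _ => hone c)
    _ = ENNReal.ofReal (((2 * (L : ℝ) + 1) ^ d) ^ 4 * p ^ 2) := by
        rw [Finset.sum_const, nsmul_eq_mul, ← ENNReal.ofReal_natCast, hcard,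
          ← ENNReal.ofReal_mul (by positivity)]

/-- resonances of two disjoint boxes at a common energy -/
theorem res_two (ν : Measure ℝ) [IsProbabilityMeasure ν] (C : ℝ) (hC : 0 < C)
    (hν : ν ≤ ENNReal.ofReal C • volume) (a b : ℝ) (c c' : Zd d) (r r' : ℕ)
    (h : r + r' < dd c c') (δ : ℝ) (hδ : 0 < δ) (hδ1 : δ ≤ 1) :
    (PP d ν) {V | ∃ E ∈ Set.Icc a b, (V, E) ∈ Res c r δ ∧ (V, E) ∈ Res c' r' δ} ≤
      ENNReal.ofReal ((|b - a| + 1) * (768 * C ^ 2 * δ * (2 * (r : ℝ) + 1) ^ d *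
        (2 * (r' : ℝ) + 1) ^ d)) := by
  obtain ⟨K, hK⟩ : ∃ K : ℕ, K = ⌊|b - a|⌋₊ + 1 := ⟨_, rfl⟩
  have hnear : ∀ (c : Zd d) (r : ℕ) (V : Zd d → ℝ) (E : ℝ), (V, E) ∈ Res c r δ →
      Near (Hm (AL (bx c r)) 1 (rs (bx c r) V) E) δ := by
    rintro c r V E ⟨f, hf⟩
    refine ⟨f, ?_, hf.le⟩
    rintro rfl
    simp at hf
  have h1 : {V | ∃ E ∈ Set.Icc a b, (V, E) ∈ Res c r δ ∧ (V, E) ∈ Res c' r' δ} ⊆
      ⋃ k ∈ Finset.range K, {V | ∃ E ∈ Set.Icc (a + (k : ℝ)) (a + k + 1),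
        Near (Hm (AL (bx c r)) 1 (rs (bx c r) V) E) δ ∧
        Near (Hm (AL (bx c' r')) 1 (rs (bx c' r') V) E) δ} := by
    rintro V ⟨E, hE, h2, h3⟩
    rw [Set.mem_iUnion₂]
    have h4 : 0 ≤ E - a := by linarith [hE.1]
    have h5 := Nat.floor_le h4
    have h6 := Nat.lt_floor_add_one (E - a)
    refine ⟨⌊E - a⌋₊, Finset.mem_range.2 ?_, E, ⟨by linarith, by linarith⟩,
      hnear _ _ _ _ h2, hnear _ _ _ _ h3⟩
    rw [hK]
    refine Nat.lt_succ_of_le (Nat.floor_le_floor ?_)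
    have h7 := le_abs_self (b - a)
    linarith [hE.2]
  have h2 : ∀ k : ℕ, (PP d ν) {V | ∃ E ∈ Set.Icc (a + (k : ℝ)) (a + k + 1),
      Near (Hm (AL (bx c r)) 1 (rs (bx c r) V) E) δ ∧
      Near (Hm (AL (bx c' r')) 1 (rs (bx c' r') V) E) δ} ≤
      ENNReal.ofReal (3 * (16 * C / 1) ^ 2 * δ * (bx c r).card * (bx c' r').card) :=
    fun k => Pool.Agent.H4R2.LO.Var.weg2 d ν C hC hν 1 one_pos _ _ (disj c c' r r' h)
      (a + (k : ℝ)) δ hδ hδ1
  calc (PP d ν) {V | ∃ E ∈ Set.Icc a b, (V, E) ∈ Res c r δ ∧ (V, E) ∈ Res c' r' δ} ≤ _ :=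
        measure_mono h1
    _ ≤ ∑ k ∈ Finset.range K, ENNReal.ofReal
        (3 * (16 * C / 1) ^ 2 * δ * (bx c r).card * (bx c' r').card) :=
        (measure_biUnion_finset_le _ _).trans (Finset.sum_le_sum fun k _ => h2 k)
    _ = ENNReal.ofReal (K * (3 * (16 * C / 1) ^ 2 * δ * (bx c r).card * (bx c' r').card)) := by
        rw [Finset.sum_const, Finset.card_range, nsmul_eq_mul,
          ENNReal.ofReal_mul (Nat.cast_nonneg K), ENNReal.ofReal_natCast]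
    _ ≤ _ := by
        apply ENNReal.ofReal_le_ofReal
        have hK2 : (K : ℝ) ≤ |b - a| + 1 := by
          have := Nat.floor_le (abs_nonneg (b - a))
          rw [hK]
          push_cast
          linarith
        rw [card_bx, card_bx]
        push_cast
        have h3 : 3 * (16 * C / 1) ^ 2 * δ * (2 * (r : ℝ) + 1) ^ d * (2 * (r' : ℝ) + 1) ^ d =
            768 * C ^ 2 * δ * (2 * (r : ℝ) + 1) ^ d * (2 * (r' : ℝ) + 1) ^ d := by ring
        rw [h3]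
        gcongr

/-- the probability of resonances near `x` and near `y` at a common energy -/
theorem rs_pr (ν : Measure ℝ) [IsProbabilityMeasure ν] (C : ℝ) (hC : 0 < C)
    (hν : ν ≤ ENNReal.ofReal C • volume) (a b : ℝ) (l L : ℕ) (hl : 1 ≤ l) (hL : 300 * l ≤ L)
    (δ : ℝ) (hδ : 0 < δ) (hδ1 : δ ≤ 1) (x y : Zd d) (hxy : 4 * L < dd x y) :
    (PP d ν) {V | ∃ E ∈ Set.Icc a b, (V, E) ∈ Rs l L δ x ∧ (V, E) ∈ Rs l L δ y} ≤
      ENNReal.ofReal ((3 * (2 * (L : ℝ) + 1) ^ d) ^ 2 *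
        ((|b - a| + 1) * (768 * C ^ 2 * δ * (L : ℝ) ^ d * (L : ℝ) ^ d))) := by
  classical
  obtain ⟨Z, hZ⟩ : ∃ Z : Zd d → Finset (Zd d × ℕ), Z = fun x => bx x L ×ˢ {1, 2, 3} := ⟨_, rfl⟩
  have hcard : ∀ x, ((Z x).card : ℝ) = 3 * (2 * (L : ℝ) + 1) ^ d := by
    intro x
    rw [hZ]
    simp only []
    rw [Finset.card_product, card_bx]
    have : ({1, 2, 3} : Finset ℕ).card = 3 := by decide
    rw [this]
    push_cast
    ring
  have hsub : {V | ∃ E ∈ Set.Icc a b, (V, E) ∈ Rs l L δ x ∧ (V, E) ∈ Rs l L δ y} ⊆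
      ⋃ q ∈ Z x ×ˢ Z y, {V | ∃ E ∈ Set.Icc a b, (V, E) ∈ Res q.1.1 (16 * q.1.2 * l) δ ∧
        (V, E) ∈ Res q.2.1 (16 * q.2.2 * l) δ} := by
    rintro V ⟨E, hE, ⟨c, h1, k, h2, h3⟩, ⟨c', h1', k', h2', h3'⟩⟩
    rw [Set.mem_iUnion₂]
    refine ⟨((c, k), (c', k')), ?_, E, hE, h3, h3'⟩
    rw [Finset.mem_product, hZ]
    exact ⟨Finset.mem_product.2 ⟨(mem_bx _ _ _).2 h1, h2⟩,
      Finset.mem_product.2 ⟨(mem_bx _ _ _).2 h1', h2'⟩⟩
  have hone : ∀ q ∈ Z x ×ˢ Z y, (PP d ν) {V | ∃ E ∈ Set.Icc a b,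
      (V, E) ∈ Res q.1.1 (16 * q.1.2 * l) δ ∧ (V, E) ∈ Res q.2.1 (16 * q.2.2 * l) δ} ≤
      ENNReal.ofReal ((|b - a| + 1) * (768 * C ^ 2 * δ * (L : ℝ) ^ d * (L : ℝ) ^ d)) := by
    rintro ⟨⟨c, k⟩, ⟨c', k'⟩⟩ hq
    rw [Finset.mem_product, hZ] at hq
    obtain ⟨h1, h2⟩ := hq
    obtain ⟨h3, h4⟩ := Finset.mem_product.1 h1
    obtain ⟨h5, h6⟩ := Finset.mem_product.1 h2
    have h3' := (mem_bx _ _ _).1 h3
    have h5' := (mem_bx _ _ _).1 h5
    simp only [] at h3' h5' h4 h6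
    have hk : k ≤ 3 := by
      simp only [Finset.mem_insert, Finset.mem_singleton] at h4
      omega
    have hk' : k' ≤ 3 := by
      simp only [Finset.mem_insert, Finset.mem_singleton] at h6
      omega
    have hkl : 16 * k * l ≤ 48 * l := Nat.mul_le_mul_right l (by omega)
    have hkl' : 16 * k' * l ≤ 48 * l := Nat.mul_le_mul_right l (by omega)
    have hdd : 16 * k * l + 16 * k' * l < dd c c' := by
      have h7 := dd_tri x c y
      have h8 := dd_tri c c' y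
      have h9 := dd_comm c' y
      omega
    refine (res_two ν C hC hν a b c c' _ _ hdd δ hδ hδ1).trans (ENNReal.ofReal_le_ofReal ?_)
    have hr : ∀ r : ℕ, r ≤ 48 * l → 2 * (r : ℝ) + 1 ≤ L := by
      intro r hr
      have : 2 * r + 1 ≤ L := by omega
      exact_mod_cast this
    have h10 := hr _ hkl
    have h11 := hr _ hkl'
    gcongr
  calc (PP d ν) {V | ∃ E ∈ Set.Icc a b, (V, E) ∈ Rs l L δ x ∧ (V, E) ∈ Rs l L δ y} ≤ _ :=
        measure_mono hsub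
    _ ≤ ∑ q ∈ Z x ×ˢ Z y, ENNReal.ofReal
        ((|b - a| + 1) * (768 * C ^ 2 * δ * (L : ℝ) ^ d * (L : ℝ) ^ d)) :=
        (measure_biUnion_finset_le _ _).trans (Finset.sum_le_sum fun q hq => hone q hq)
    _ = _ := by
        rw [Finset.sum_const, nsmul_eq_mul, ← ENNReal.ofReal_natCast, Finset.card_product]
        rw [Nat.cast_mul, hcard, hcard, ← ENNReal.ofReal_mul (by positivity)]
        congr 1
        ring

theorem pro_nat (k n : ℕ) : pro (k : ℝ) n = (((2 : ℝ) ^ n) ^ k)⁻¹ := by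
  unfold pro
  rw [Real.rpow_neg (by norm_num), ← Nat.cast_mul, Real.rpow_natCast, pow_mul']

/-- **BTS**: one step of the multiscale analysis with variable energy -/
theorem bts (hDES : St_DES) : St_BTS := by
  intro d hd C a b P hP
  obtain ⟨N1, hN1⟩ : ∃ N1 : ℕ, 3 * (9 * 9 ^ d * ((|b - a| + 1) * (768 * (C : ℝ) ^ 2))) ≤ N1 :=
    exists_nat_ge _
  refine ⟨N1 + d + 40, ?_⟩
  intro ν _ hν n s hn hns1 hns2 ρ hρ B hB
  have hC : 0 < (C : ℝ) := by
    rcases (C.2 : (0 : ℝ) ≤ C).lt_or_eq with h | h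
    · exact h
    · exfalso
      have hC0 : C = 0 := by
        apply NNReal.coe_injective
        rw [NNReal.coe_zero]
        exact h.symm
      rw [hC0, zero_smul] at hν
      have h1 : ν Set.univ ≤ 0 := by simpa using hν Set.univ
      rw [measure_univ] at h1
      exact absurd h1 (by simp)
  have hν' : ν ≤ ENNReal.ofReal (C : ℝ) • (volume : Measure ℝ) := by
    rw [ENNReal.ofReal_coe_nnreal]
    exact hν
  obtain ⟨l, hl⟩ : ∃ l : ℕ, l = 2 ^ n := ⟨_, rfl⟩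
  obtain ⟨L, hL⟩ : ∃ L : ℕ, L = 2 ^ (n + s) := ⟨_, rfl⟩
  have hl1 : 1 ≤ l := by rw [hl]; exact Nat.one_le_two_pow
  have hlL : 300 * l ≤ L := by
    rw [hL, hl, pow_add, mul_comm]
    refine Nat.mul_le_mul_left _ ?_
    calc 300 ≤ 2 ^ 9 := by norm_num
      _ ≤ 2 ^ s := Nat.pow_le_pow_right (by norm_num) (by omega)
  obtain ⟨t, ht⟩ : ∃ t : ℝ, t = 2 ^ n := ⟨_, rfl⟩
  obtain ⟨T, hT⟩ : ∃ T : ℝ, T = 2 ^ (n + s) := ⟨_, rfl⟩
  have hlt : (l : ℝ) = t := by rw [hl, ht]; push_cast; rfl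
  have hLT : (L : ℝ) = T := by rw [hL, hT]; push_cast; rfl
  have hT1 : 1 ≤ T := by rw [hT]; exact one_le_pow₀ (by norm_num)
  have hT0 : 0 < T := by linarith
  have ht1 : 1 ≤ t := by rw [ht]; exact one_le_pow₀ (by norm_num)
  have hTn : (N1 : ℝ) ≤ T := by
    rw [hT]
    have h1 : N1 ≤ 2 ^ (n + s) := by
      calc N1 ≤ n + s := by omega
        _ ≤ 2 ^ (n + s) := Nat.lt_two_pow_self.le
    exact_mod_cast h1
  obtain ⟨δ, hδ⟩ : ∃ δ : ℝ, δ = (T ^ (P + 4 * d + 1))⁻¹ := ⟨_, rfl⟩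
  have hδ0 : 0 < δ := by rw [hδ]; positivity
  have hδ1 : δ ≤ 1 := by
    rw [hδ]
    exact inv_le_one_of_one_le₀ (one_le_pow₀ hT1)
  rw [← hl] at hB
  refine ⟨fun x => Fo B l L x ∪ Rs l L δ x, ?_, ?_, ?_, ?_⟩
  · -- open
    intro x E
    exact (fo_open B hB.op l L x E).union (rs_open l L δ x E)
  · -- local
    intro x V V' E hVV hV
    rw [← hL] at hVV
    have hm : ∀ c, dd x c ≤ L → ∀ r, r ≤ 48 * l → ∀ y, dd c y ≤ r → V y = V' y := by
      intro c hc r hr y hy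
      apply hVV
      have h2 := dd_tri x c y
      omega
    rcases hV with ⟨c, h1, h2, h3⟩ | ⟨c, h1, k, h2, h3⟩
    · left
      exact ⟨c, h1, h2, fun i => hB.loc _ V V' E (hm _ (h1 i) _ (by omega)) (h3 i)⟩
    · right
      refine ⟨c, h1, k, h2, res_loc _ _ _ V V' E (hm _ h1 _ ?_) h3⟩
      have hk : k ≤ 3 := by
        simp only [Finset.mem_insert, Finset.mem_singleton] at h2
        omega
      exact Nat.mul_le_mul_right l (by omega)
  · -- probability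
    intro x y hxy
    rw [← hL] at hxy
    have hp0 : 0 ≤ pro (P : ℝ) n := by rw [pro_nat]; positivity
    have hsub : {V : Zd d → ℝ | ∃ E ∈ Set.Icc a b, (V, E) ∈ Fo B l L x ∪ Rs l L δ x ∧
        (V, E) ∈ Fo B l L y ∪ Rs l L δ y} ⊆
        ({V | ∃ E ∈ Set.Icc a b, (V, E) ∈ Fo B l L x} ∪
          {V | ∃ E ∈ Set.Icc a b, (V, E) ∈ Fo B l L y}) ∪
        {V | ∃ E ∈ Set.Icc a b, (V, E) ∈ Rs l L δ x ∧ (V, E) ∈ Rs l L δ y} := by
      rintro V ⟨E, hE, h1 | h1, h2⟩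
      · exact Or.inl (Or.inl ⟨E, hE, h1⟩)
      · rcases h2 with h2 | h2
        · exact Or.inl (Or.inr ⟨E, hE, h2⟩)
        · exact Or.inr ⟨E, hE, h1, h2⟩
    have hA : ((2 * (L : ℝ) + 1) ^ d) ^ 4 * (pro (P : ℝ) n) ^ 2 ≤ 1 / 3 * (T ^ P)⁻¹ := by
      rw [pro_nat, hLT, ← ht]
      have h1 : (2 * T + 1) ^ d ≤ (3 * T) ^ d := by
        gcongr
        linarith
      have h2 : ((3 * T) ^ d) ^ 4 ≤ (2 : ℝ) ^ (7 * d + 4 * d * (n + s)) := by
        have h3 : ((3 * T) ^ d) ^ 4 = 81 ^ d * T ^ (4 * d) := by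
          rw [← pow_mul, mul_comm d 4, mul_pow, pow_mul]
          norm_num
        rw [h3, pow_add, hT, ← pow_mul]
        have h4 : (81 : ℝ) ^ d ≤ 2 ^ (7 * d) := by
          rw [pow_mul]
          gcongr
          norm_num
        have h5 : (n + s) * (4 * d) = 4 * d * (n + s) := by ring
        rw [h5]
        gcongr
      have h6 : 7 * d + 4 * d * (n + s) + 2 + P * (n + s) ≤ 2 * P * n := by
        have e1 : 2 * (P * s) ≤ P * n := by nlinarith
        have e2 : 2 * (d * s) ≤ d * n := by nlinarith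
        have e3 : 14 * (d * n) ≤ P * n := by nlinarith
        have e4 : 40 * d ≤ d * n := by nlinarith
        nlinarith
      have h7 : (2 : ℝ) ^ (7 * d + 4 * d * (n + s)) * 3 * 2 ^ (P * (n + s)) ≤
          2 ^ (2 * P * n) := by
        calc (2 : ℝ) ^ (7 * d + 4 * d * (n + s)) * 3 * 2 ^ (P * (n + s)) ≤
              2 ^ (7 * d + 4 * d * (n + s)) * 2 ^ 2 * 2 ^ (P * (n + s)) := by
              gcongr
              norm_num
          _ = 2 ^ (7 * d + 4 * d * (n + s) + 2 + P * (n + s)) := by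
              rw [← pow_add, ← pow_add]
          _ ≤ 2 ^ (2 * P * n) := pow_le_pow_right₀ (by norm_num) h6
      have h8 : t ^ P * t ^ P = 2 ^ (2 * P * n) := by
        rw [ht, ← pow_mul, ← pow_add]
        congr 1
        ring
      have h9 : T ^ P = 2 ^ (P * (n + s)) := by
        rw [hT, ← pow_mul]
        congr 1
        ring
      have h10 : (0 : ℝ) < 2 ^ (2 * P * n) := by positivity
      calc ((2 * T + 1) ^ d) ^ 4 * ((t ^ P)⁻¹) ^ 2 ≤
            2 ^ (7 * d + 4 * d * (n + s)) * ((t ^ P)⁻¹) ^ 2 := by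
            gcongr
            exact (by gcongr : ((2 * T + 1) ^ d) ^ 4 ≤ ((3 * T) ^ d) ^ 4).trans h2
        _ = 2 ^ (7 * d + 4 * d * (n + s)) / 2 ^ (2 * P * n) := by
            rw [← h8]
            field_simp
        _ ≤ 1 / 3 * (T ^ P)⁻¹ := by
            rw [h9, div_le_iff₀ h10]
            have h11 : (0 : ℝ) < 2 ^ (P * (n + s)) := by positivity
            have h12 : 1 / 3 * (2 ^ (P * (n + s)) : ℝ)⁻¹ * 2 ^ (2 * P * n) =
                2 ^ (2 * P * n) / (3 * 2 ^ (P * (n + s))) := by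
              field_simp
            rw [h12, le_div_iff₀ (by positivity)]
            linarith
    have hW : (3 * (2 * (L : ℝ) + 1) ^ d) ^ 2 *
        ((|b - a| + 1) * (768 * (C : ℝ) ^ 2 * δ * (L : ℝ) ^ d * (L : ℝ) ^ d)) ≤
        1 / 3 * (T ^ P)⁻¹ := by
      rw [hLT]
      have h1 : (2 * T + 1) ^ d ≤ (3 * T) ^ d := by
        gcongr
        linarith
      calc (3 * (2 * T + 1) ^ d) ^ 2 *
          ((|b - a| + 1) * (768 * (C : ℝ) ^ 2 * δ * T ^ d * T ^ d)) ≤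
          (3 * (3 * T) ^ d) ^ 2 *
          ((|b - a| + 1) * (768 * (C : ℝ) ^ 2 * δ * T ^ d * T ^ d)) := by
            gcongr
        _ = (9 * 9 ^ d * ((|b - a| + 1) * (768 * (C : ℝ) ^ 2))) / T * (T ^ P)⁻¹ := by
            rw [hδ, show P + 4 * d + 1 = P + (d + d + d + d) + 1 by ring, pow_add, pow_add,
              pow_add, pow_add, pow_add, mul_pow 3 T d,
              show (9 : ℝ) ^ d = 3 ^ d * 3 ^ d by rw [← mul_pow]; norm_num]
            field_simp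
            ring
        _ ≤ 1 / 3 * (T ^ P)⁻¹ := by
            refine mul_le_mul_of_nonneg_right ?_ (by positivity)
            rw [div_le_div_iff₀ hT0 (by norm_num)]
            linarith
    calc (PP d ν) {V : Zd d → ℝ | ∃ E ∈ Set.Icc a b, (V, E) ∈ Fo B l L x ∪ Rs l L δ x ∧
        (V, E) ∈ Fo B l L y ∪ Rs l L δ y} ≤ _ := measure_mono hsub
      _ ≤ (PP d ν) {V | ∃ E ∈ Set.Icc a b, (V, E) ∈ Fo B l L x} +
          (PP d ν) {V | ∃ E ∈ Set.Icc a b, (V, E) ∈ Fo B l L y} +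
          (PP d ν) {V | ∃ E ∈ Set.Icc a b, (V, E) ∈ Rs l L δ x ∧ (V, E) ∈ Rs l L δ y} :=
          (measure_union_le _ _).trans (add_le_add (measure_union_le _ _) le_rfl)
      _ ≤ ENNReal.ofReal (1 / 3 * (T ^ P)⁻¹) + ENNReal.ofReal (1 / 3 * (T ^ P)⁻¹) +
          ENNReal.ofReal (1 / 3 * (T ^ P)⁻¹) := by
          refine add_le_add (add_le_add ?_ ?_) ?_
          · exact (fo_pr ν _ l L _ hp0 B hB.op hB.loc hB.pr x).trans
              (ENNReal.ofReal_le_ofReal hA)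
          · exact (fo_pr ν _ l L _ hp0 B hB.op hB.loc hB.pr y).trans
              (ENNReal.ofReal_le_ofReal hA)
          · exact (rs_pr ν C hC hν' a b l L hl1 hlL δ hδ0 hδ1 x y hxy).trans
              (ENNReal.ofReal_le_ofReal hW)
      _ = ENNReal.ofReal (pro P (n + s)) := by
          have h0 : 0 ≤ 1 / 3 * (T ^ P)⁻¹ := by positivity
          rw [← ENNReal.ofReal_add h0 h0, ← ENNReal.ofReal_add (by positivity) h0, pro_nat, ← hT]
          congr 1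
          ring
  · -- decay
    intro x V E hVE
    have h1 : (V, E) ∉ Fo B l L x := fun h => hVE (Or.inl h)
    have h2 : (V, E) ∉ Rs l L δ x := fun h => hVE (Or.inr h)
    have hρ0 : 0 ≤ ρ := by
      refine le_trans ?_ hρ
      positivity
    have hexp : Real.exp (-ρ) ≤ ((2 : ℝ) ^ ((2 * P + 10 * d + 10) * n))⁻¹ := by
      rw [Real.exp_neg]
      refine inv_anti₀ (by positivity) ?_
      have h3 : (2 : ℝ) ^ ((2 * P + 10 * d + 10) * n) ≤
          Real.exp 1 ^ ((2 * P + 10 * d + 10) * n) := by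
        gcongr
        have := Real.exp_one_gt_d9
        linarith
      refine h3.trans ?_
      rw [← Real.exp_nat_mul, mul_one]
      apply Real.exp_le_exp.2
      push_cast
      exact hρ
    have hcond : δ⁻¹ * (100 * l : ℝ) ^ d * (2 * d * Real.exp (-ρ)) ≤ 1 / 2 := by
      have e1 : δ⁻¹ = 2 ^ ((P + 4 * d + 1) * (n + s)) := by
        rw [hδ, inv_inv, hT, ← pow_mul]
        congr 1
        ring
      have e2 : (100 * l : ℝ) ^ d ≤ 2 ^ (7 * d + d * n) := by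
        have h3 : (100 : ℝ) * l ≤ 2 ^ (7 + n) := by
          rw [hlt, ht, pow_add]
          gcongr
          norm_num
        calc (100 * l : ℝ) ^ d ≤ (2 ^ (7 + n)) ^ d := by gcongr
          _ = 2 ^ (7 * d + d * n) := by
              rw [← pow_mul]
              congr 1
              ring
      have e3 : (2 * d : ℝ) ≤ 2 ^ (d + 1) := by
        have h3 : d ≤ 2 ^ d := Nat.lt_two_pow_self.le
        have h4 : (d : ℝ) ≤ 2 ^ d := by exact_mod_cast h3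
        rw [pow_succ]
        linarith
      have e4 : (P + 4 * d + 1) * (n + s) + (7 * d + d * n) + (d + 1) + 1 ≤
          (2 * P + 10 * d + 10) * n := by
        have f1 : 2 * (P * s) ≤ P * n := by nlinarith
        have f2 : 2 * (d * s) ≤ d * n := by nlinarith
        have f4 : 40 * d ≤ d * n := by nlinarith
        nlinarith
      calc δ⁻¹ * (100 * l : ℝ) ^ d * (2 * d * Real.exp (-ρ)) ≤
            2 ^ ((P + 4 * d + 1) * (n + s)) * 2 ^ (7 * d + d * n) *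
              (2 ^ (d + 1) * ((2 : ℝ) ^ ((2 * P + 10 * d + 10) * n))⁻¹) := by
            rw [e1]
            gcongr
        _ = 2 ^ ((P + 4 * d + 1) * (n + s) + (7 * d + d * n) + (d + 1)) /
              2 ^ ((2 * P + 10 * d + 10) * n) := by
            rw [pow_add, pow_add]
            ring
        _ ≤ 1 / 2 := by
            rw [div_le_div_iff₀ (by positivity) (by norm_num), one_mul, ← pow_succ]
            exact pow_le_pow_right₀ (by norm_num) e4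
    have h3 := hDES d hd l L hl1 hlL x V E ρ δ hρ0 hδ0 hcond (fun c => (V, E) ∈ B c)
      (fun c hc => hB.ce c V E hc) (by
        intro c hc1 hc2
        by_contra hcon
        push Not at hcon
        exact h1 ⟨c, hc1, hc2, hcon⟩) (by
        intro c hc k hk hres
        exact h2 ⟨c, hc, k, hk, hres⟩)
    rw [← hL]
    have h4 : ρ * ((2 : ℝ) ^ (n + s) - 300 * 2 ^ n) / (2 ^ n + 1) =
        ρ * ((L : ℝ) - 300 * l) / (l + 1) := by
      rw [hLT, hlt, hT, ht]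
    rw [h4]
    exact h3

end Pool.Agent.Helper82.Tg
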